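import Mathlib
import Pool.Agent.Helper37.DG.Stmts2

set_option autoImplicit false

/-!
Project UG (MP_e500b6_co): distinct distances in dense subsets of two-dimensional generalized
arithmetic progressions, uniformly over all generators.  Statements of all modules.
Blueprint with the proofs: /team-store/ug_blueprint.md
-/

namespace Pool.Agent.Helper47.UG

open Finset
open scoped Classical
open Pool.Agent.Helper17.SO (PP LL)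
open Pool.Agent.Helper37.DG (box sbox hit Free sw Spl PD)

/-! ### Notions -/

/-- the binary quadratic form -/
def qf (a b c : ℤ) (v : ℤ × ℤ) : ℤ := a * v.1 ^ 2 + b * v.1 * v.2 + c * v.2 ^ 2

/-- its polar form -/
def bf (a b c : ℤ) (v w : ℤ × ℤ) : ℤ :=
  2 * a * v.1 * w.1 + b * (v.1 * w.2 + v.2 * w.1) + 2 * c * v.2 * w.2

/-- determinant -/
def dt (v w : ℤ × ℤ) : ℤ := v.1 * w.2 - v.2 * w.1

/-- minus the discriminant -/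
def ds (a b c : ℤ) : ℤ := 4 * a * c - b ^ 2

/-- minus the discriminant, as a natural number -/
def Dn (a b c : ℤ) : ℕ := (ds a b c).toNat

/-- positive definite -/
def Pos (a b c : ℤ) : Prop := 0 < a ∧ 0 < ds a b c

/-- primitive -/
def Prm (a b c : ℤ) : Prop := ∀ p : ℕ, p.Prime → ¬ ((p : ℤ) ∣ a ∧ (p : ℤ) ∣ b ∧ (p : ℤ) ∣ c)

/-- number of values of the form on the differences of distinct points of `P` -/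
noncomputable def cq (a b c : ℤ) (P : Finset (ℤ × ℤ)) : ℕ :=
  (P.offDiag.image (fun u => qf a b c (u.1 - u.2))).card

/-- the part of the value of the form made of the primes up to `w` -/
noncomputable def sm (a b c : ℤ) (w : ℕ) (v : ℤ × ℤ) : ℕ :=
  ∏ p ∈ PP 0 w, p ^ (qf a b c v).natAbs.factorization p

/-- real binary quadratic form -/
noncomputable def Fm (A B C : ℝ) (v : ℤ × ℤ) : ℝ :=
  A * (v.1 : ℝ) ^ 2 + B * (v.1 : ℝ) * (v.2 : ℝ) + C * (v.2 : ℝ) ^ 2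

/-- number of values of a real form on the differences of distinct points of `P` -/
noncomputable def cF (A B C : ℝ) (P : Finset (ℤ × ℤ)) : ℕ :=
  (P.offDiag.image (fun u => Fm A B C (u.1 - u.2))).card

/-- the character -/
def chi (D n : ℕ) : ℤ := if n % 2 = 1 then jacobiSym (-(D : ℤ)) n else 0

/-- its divisor sum -/
def rr (D n : ℕ) : ℤ := ∑ d ∈ n.divisors, chi D d

/-- logarithmic sum of `rr` -/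
noncomputable def Rr (D x : ℕ) : ℝ := ∑ n ∈ Finset.Icc 1 x, (rr D n : ℝ) / n

/-- Euler product -/
noncomputable def PE (D x : ℕ) : ℝ :=
  ∏ p ∈ PP 0 x, ((1 - 1 / (p : ℝ))⁻¹ * (1 - (chi D p : ℝ) / p)⁻¹)

/-! ### A. The uniform Mertens bound for split primes -/

/-- MT1: Mertens' first theorem, upper bound. -/
def ST_MT1 : Prop := ∃ C : ℝ, 0 ≤ C ∧ ∀ w : ℕ, 2 ≤ w →
  ∑ p ∈ PP 0 w, Real.log p / p ≤ Real.log w + C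

/-- CHI: the character. -/
def ST_CHI : Prop := ∀ D : ℕ, 1 ≤ D →
  chi D 1 = 1 ∧ (∀ m n : ℕ, chi D (m * n) = chi D m * chi D n) ∧
  (∀ n : ℕ, |chi D n| ≤ 1) ∧
  (∀ m n : ℕ, |∑ k ∈ Finset.Ico m n, chi D k| ≤ 4 * D) ∧
  (∀ p : ℕ, p.Prime → (Spl D p → chi D p = 1)) ∧
  (∀ n : ℕ, 1 ≤ n → 0 ≤ rr D n)

/-- RSA: the logarithmic sum is nearly affine in `log x`. -/
def ST_RSA : Prop := ∃ C : ℝ, 0 < C ∧ ∀ D X : ℕ, 1 ≤ D → ∃ α β : ℝ, ∀ x : ℕ, 2 ≤ x → x ≤ X →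
  |Rr D x - (α * Real.log x + β)| ≤ C * D * Real.log x / Real.sqrt x

/-- RRT: growth of the logarithmic sum. -/
def ST_RRT : Prop := ∀ k : ℕ, 1 ≤ k → ∃ (A₁ : ℕ) (C : ℝ), 0 < C ∧ ∀ D w z : ℕ, 1 ≤ D →
  (4 * D) ^ A₁ ≤ w → w ≤ z → 2 ≤ w → Rr D (z ^ k) * Real.log w ≤ C * Real.log z * Rr D w

/-- PEU: the Euler product against the logarithmic sum. -/
def ST_PEU : Prop := ∃ k : ℕ, 1 ≤ k ∧ ∀ D x : ℕ, 1 ≤ D → 2 ≤ x →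
  Rr D x ≤ PE D x ∧ PE D x ≤ 2 * Rr D (x ^ k)

/-- TLF: the uniform bound for large primes. -/
def ST_TLF : Prop := ∃ (A₁ : ℕ) (C : ℝ), ∀ D w z : ℕ, 1 ≤ D → (4 * D) ^ A₁ ≤ w → 2 ≤ w → w ≤ z →
  ∑ p ∈ PD D w z, 1 / (p : ℝ) ≤ LL w z / 2 + C

/-- TLT: the uniform bound. -/
def ST_TLT : Prop := ∀ T : ℕ, ∃ C : ℝ, ∀ D w z : ℕ, 1 ≤ D → 2 ≤ w → w ≤ z → D ≤ w ^ T →
  ∑ p ∈ PD D w z, 1 / (p : ℝ) ≤ LL w z / 2 + C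

/-! ### B. Counting in the box -/

/-- LOC: solutions modulo prime powers. -/
def ST_LOC : Prop := ∀ (a b c : ℤ) (p k : ℕ), Prm a b c → p.Prime → 1 ≤ k →
  ((Finset.range (p ^ k) ×ˢ Finset.range (p ^ k)).filter
    (fun v => ((p : ℤ) ^ k) ∣ qf a b c ((v.1 : ℤ), (v.2 : ℤ)))).card ≤ 2 * p ^ (2 * k - (k + 1) / 2)

/-- UPT: upper bound sieve in a residue class of the box of differences. -/
def ST_UPT : Prop := ∃ (b : ℕ) (C : ℝ), 1 ≤ b ∧ 0 < C ∧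
  ∀ (j : ℕ → ℤ) (N M z e : ℕ) (A : Finset ℕ) (v₀ : ℤ × ℤ), 1 ≤ M → M ≤ N → 2 ≤ z → 1 ≤ e →
  e ≤ M → z ^ b * e ≤ N → (∀ p ∈ A, p.Prime ∧ 7 ≤ p ∧ p ≤ z ∧ ¬ p ∣ e) →
  (((sbox N M).filter (fun v => (e : ℤ) ∣ v.1 - v₀.1 ∧ (e : ℤ) ∣ v.2 - v₀.2 ∧
    Free j A v)).card : ℝ) ≤ C * ((M : ℝ) * N / (e : ℝ) ^ 2) * sw A

/-- UPE: sieved vectors with value divisible by a prime power. -/
def ST_UPE : Prop := ∃ (b : ℕ) (C : ℝ), 1 ≤ b ∧ 0 < C ∧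
  ∀ (a b' c : ℤ) (j : ℕ → ℤ) (N M z p k : ℕ) (A : Finset ℕ), Prm a b' c → 1 ≤ M → M ≤ N → 2 ≤ z →
  p.Prime → 1 ≤ k → p ^ k ≤ M → z ^ b * p ^ k ≤ N →
  (∀ l ∈ A, l.Prime ∧ 7 ≤ l ∧ l ≤ z ∧ l ≠ p) →
  (((sbox N M).filter (fun v => ((p : ℤ) ^ k) ∣ qf a b' c v ∧ Free j A v)).card : ℝ) ≤
    C * ((M : ℝ) * N / (p : ℝ) ^ ((k + 1) / 2)) * sw A

/-- BDA: few sieved vectors have a large smooth part. -/
def ST_BDA : Prop := ∃ (b : ℕ) (C : ℝ), 1 ≤ b ∧ 0 < C ∧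
  ∀ (a b' c : ℤ) (j : ℕ → ℤ) (N M w z T : ℕ) (A : Finset ℕ), Pos a b' c → Prm a b' c → 1 ≤ M →
  M ≤ N → 6 ≤ w → w ≤ z → 1 ≤ T → w ^ 5 ≤ M → z ^ b * w ^ 5 ≤ N → A ⊆ PP w z →
  (((sbox N M).filter (fun v => v ≠ 0 ∧ Free j A v ∧ w ^ T < sm a b' c w v)).card : ℝ) ≤
    C * (1 / (T : ℝ) + 1 / (w : ℝ)) * ((M : ℝ) * N) * sw A

/-- BDB: few sieved vectors have a value divisible by a large prime factor of the discriminant. -/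
def ST_BDB : Prop := ∃ (b : ℕ) (C : ℝ), 1 ≤ b ∧ 0 < C ∧
  ∀ (a b' c : ℤ) (j : ℕ → ℤ) (N M w z : ℕ) (A : Finset ℕ), Pos a b' c → Prm a b' c → 1 ≤ M →
  M ≤ N → 6 ≤ w → w ≤ z → z ≤ M → z ^ b * z ≤ N → A ⊆ PP w z → (∀ p ∈ A, ¬ p ∣ Dn a b' c) →
  (((sbox N M).filter (fun v => v ≠ 0 ∧ Free j A v ∧
    ∃ p : ℕ, p.Prime ∧ w < p ∧ p ∣ Dn a b' c ∧ (p : ℤ) ∣ qf a b' c v)).card : ℝ) ≤
    C * (Real.log (Dn a b' c) / Real.log w) *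
      ((M : ℝ) * N / w * sw A + (M : ℝ) * N / z + N)

/-! ### C. Multiplicities -/

/-- PRO: profiles at a prime power. -/
def ST_PRO : Prop := ∀ (a b c : ℤ) (p k : ℕ) (j : ℤ), p.Prime → ¬ (p : ℤ) ∣ 2 * ds a b c →
  ∃ e : ℤ × ℤ → ℕ, (∀ v, e v ≤ k) ∧
    (∀ v w : ℤ × ℤ, ((p : ℤ) ^ k) ∣ qf a b c v → ((p : ℤ) ^ k) ∣ qf a b c w → e v = e w →
      ((p : ℤ) ^ k) ∣ dt v w ∧ ((p : ℤ) ^ k) ∣ bf a b c v w) ∧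
    ((p : ℤ) ∣ a * j ^ 2 - b * j + c → ∀ v : ℤ × ℤ, ¬ (p : ℤ) ∣ v.1 + j * v.2 → e v = 0) ∧
    ((¬ ∃ r : ℤ, (p : ℤ) ∣ r ^ 2 + ds a b c) → ∀ v : ℤ × ℤ, e v = 0)

/-- FIB: the number of sieved vectors with a given value and small smooth part. -/
def ST_FIB : Prop := ∀ (a b c : ℤ) (j : ℕ → ℤ) (w z κ T m : ℕ) (S : Finset (ℤ × ℤ)), Pos a b c →
  2 ≤ w → w ≤ z → 1 ≤ m →
  (∀ p ∈ PD (Dn a b c) w z, (p : ℤ) ∣ a * j p ^ 2 - b * j p + c) →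
  (∀ v ∈ S, qf a b c v = m ∧ Free j (PD (Dn a b c) w z) v) →
  (∀ p : ℕ, p.Prime → w < p → p ∣ Dn a b c → ¬ p ∣ m) →
  ∏ p ∈ PP 0 w, p ^ m.factorization p ≤ w ^ T → m < z ^ κ →
  S.card ≤ 2 ^ κ * (8 * w ^ T + 2) ∧ (4 * w ^ (2 * T) < Dn a b c → S.card ≤ 2 ^ κ * 2)

/-! ### D. Assembly for integral forms -/

/-- COR: the counting argument. -/
def ST_COR : Prop := ∀ (N M : ℕ) (P : Finset (ℤ × ℤ)) (Fr Gd : ℤ × ℤ → Prop) (q : ℤ × ℤ → ℤ)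
  (X R : ℝ), P ⊆ box N M → 1 ≤ P.card → 0 ≤ R → 4 * (P.card : ℝ) ≤ X →
  X ≤ ((P ×ˢ P).filter (fun u => Fr (u.1 - u.2))).card →
  4 * (P.card : ℝ) * ((sbox N M).filter (fun v => v ≠ 0 ∧ Fr v ∧ ¬ Gd v)).card ≤ X →
  (∀ (s : ℤ) (S : Finset (ℤ × ℤ)), (∀ v ∈ S, v ∈ sbox N M ∧ v ≠ 0 ∧ Fr v ∧ Gd v ∧ q v = s) →
    (S.card : ℝ) ≤ R) →
  X ≤ 2 * P.card * R * (P.offDiag.image (fun u => q (u.1 - u.2))).card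

/-- RGM: the main range. -/
def ST_RGM : Prop := ∀ δ : ℝ, 0 < δ → ∃ (c₀ : ℝ) (N₀ : ℕ), 0 < c₀ ∧
  ∀ (N M : ℕ) (a b c : ℤ) (P : Finset (ℤ × ℤ)), N₀ ≤ N → M ≤ N → N ≤ M ^ 3 → P ⊆ box N M →
  δ * ((M : ℝ) * N) ≤ P.card → Pos a b c → Prm a b c →
  |a| ≤ 8 * (N : ℤ) ^ 4 → |b| ≤ 8 * (N : ℤ) ^ 4 → |c| ≤ 8 * (N : ℤ) ^ 4 →
  c₀ * Real.sqrt (Real.log (Dn a b c) / Real.log N) * P.card ≤ cq a b c P

/-! ### E. Real forms -/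

/-- HYP: integral points on a hyperbola. -/
def ST_HYP : Prop := ∃ C : ℝ, 0 < C ∧ ∀ (A B₁ B₂ G : ℝ) (N : ℕ) (S : Finset (ℤ × ℤ)), 0 < A →
  1 ≤ N → 4 * A * G + B₁ ^ 2 - B₂ ^ 2 ≠ 0 → S ⊆ sbox N N →
  (∀ v ∈ S, A * (v.1 : ℝ) ^ 2 + B₁ * (v.1 : ℝ) - A * (v.2 : ℝ) ^ 2 - B₂ * (v.2 : ℝ) = G) →
  (S.card : ℝ) ^ 3 ≤ C * (N : ℝ) ^ 2

/-- THN: thin boxes. -/
def ST_THN : Prop := ∃ K : ℝ, 0 < K ∧ ∀ (A B C : ℝ) (N M : ℕ) (P : Finset (ℤ × ℤ)), 0 < A →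
  0 < 4 * A * C - B ^ 2 → 1 ≤ M → M ^ 3 ≤ N → P ⊆ box N M → 2 ≤ P.card →
  (P.card : ℝ) ^ 2 ≤ K * ((M : ℝ) * N) * cF A B C P

/-- DIC: either every value is taken at most four times or the form is integral of small height. -/
def ST_DIC : Prop := ∀ (A B C : ℝ) (N M : ℕ), 0 < A → 0 < 4 * A * C - B ^ 2 → M ≤ N →
  (∀ (s : ℝ) (S : Finset (ℤ × ℤ)), 0 < s → S ⊆ sbox N M → (∀ v ∈ S, Fm A B C v = s) →
    S.card ≤ 4) ∨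
  ∃ (t : ℝ) (a b c : ℤ), 0 < t ∧ Pos a b c ∧ Prm a b c ∧ |a| ≤ 8 * (N : ℤ) ^ 4 ∧
    |b| ≤ 8 * (N : ℤ) ^ 4 ∧ |c| ≤ 8 * (N : ℤ) ^ 4 ∧ A = t * a ∧ B = t * b ∧ C = t * c

/-- CMB: all real forms. -/
def ST_CMB : Prop := ∀ δ : ℝ, 0 < δ → ∃ c₀ : ℝ, 0 < c₀ ∧
  ∀ (A B C D : ℝ) (N M : ℕ) (P : Finset (ℤ × ℤ)), 0 < A → 0 < 4 * A * C - B ^ 2 → 2 ≤ D →
  (∀ (t : ℝ) (a b c : ℤ), A = t * a → B = t * b → C = t * c → D < 4 * a * c - b ^ 2) →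
  M ≤ N → P ⊆ box N M → δ * ((M : ℝ) * N) ≤ P.card → 2 ≤ P.card →
  c₀ * P.card * min 1 (Real.sqrt (Real.log D / Real.log P.card)) ≤ cF A B C P

/-- FNL: the theorem in the plane. -/
def ST_FNL : Prop := ∀ δ : ℝ, 0 < δ → ∃ c₀ : ℝ, 0 < c₀ ∧
  ∀ (α β o : ℂ) (N M : ℕ) (D : ℝ) (P G : Finset ℂ), 2 ≤ D →
  (α.re * β.im - α.im * β.re ≠ 0 → ∀ (t : ℝ) (a b c : ℤ), ‖α‖ ^ 2 = t * a →
    2 * (α.re * β.re + α.im * β.im) = t * b → ‖β‖ ^ 2 = t * c → D < 4 * a * c - b ^ 2) →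
  G ⊆ P → (∀ g ∈ G, ∃ x y : ℕ, x < N ∧ y < M ∧ g = o + x * α + y * β) →
  δ * ((M : ℝ) * N) ≤ G.card → 2 ≤ G.card →
  c₀ * G.card * min 1 (Real.sqrt (Real.log D / Real.log G.card)) ≤
    (P.offDiag.image (fun u => dist u.1 u.2)).card

end Pool.Agent.Helper47.UG
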