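import Pool.Agent.Helper37.DG.All
import Pool.Agent.Helper27.UG.CHI
import Pool.Agent.Helper49.UG.RSA
import Pool.Agent.Helper80.UG.MT1
import Pool.Agent.Helper80.UG.RRT
import Pool.Agent.Helper80.UG.PEU
import Pool.Agent.Helper80.UG.TLF
import Pool.Agent.Helper80.UG.TLT
import Pool.Agent.Helper19.UG.LOC
import Pool.Agent.Helper44.UG.UPT
import Pool.Agent.Helper19.UG.UPE
import Pool.Agent.Helper39.UG.BDA
import Pool.Agent.Helper27.UG.BDB
import Pool.Agent.Helper39.UG.PRO
import Pool.Agent.Helper84.UG.FIB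
import Pool.Agent.Helper19.UG.COR
import Pool.Agent.Helper86.UG.RGM
import Pool.Agent.Helper51.UG.HYP
import Pool.Agent.Helper79.UG.THN
import Pool.Agent.Helper39.UG.DIC
import Pool.Agent.Helper55.UG.CMB
import Pool.Agent.Helper44.UG.FNL

set_option autoImplicit false

/-!
Assembly of the project UG (MP_e500b6_co).
-/

namespace Pool.Agent.Helper47.UG

theorem all_MER : Pool.Agent.Helper17.SO.ST_MER := Pool.Agent.Helper17.SO.st_MER

theorem all_CHI : ST_CHI := st_CHI Pool.Agent.Helper17.SO.st_NSQ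

theorem all_RSA : ST_RSA := st_RSA all_CHI

theorem all_RRT : ST_RRT := st_RRT all_CHI all_RSA

theorem all_PEU : ST_PEU := st_PEU st_MT1 all_CHI

theorem all_TLF : ST_TLF := st_TLF all_CHI all_RRT all_PEU

theorem all_TLT : ST_TLT := st_TLT all_TLF all_MER

theorem all_UPT : ST_UPT := Pool.Agent.Helper44.UG.st_UPT Pool.Agent.Helper37.DG.all_SAP

theorem all_UPE : ST_UPE :=
  Pool.Agent.Helper19.UG.st_UPE Pool.Agent.Helper19.UG.st_LOC all_UPT

theorem all_BDA : ST_BDA := st_BDA st_MT1 all_UPE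

theorem all_BDB : ST_BDB := st_BDB all_UPE

theorem all_FIB : ST_FIB := st_FIB st_PRO

theorem all_RGM : ST_RGM :=
  st_RGM all_TLT all_BDA all_BDB all_FIB Pool.Agent.Helper19.UG.st_COR
    Pool.Agent.Helper37.DG.all_LOWD

theorem all_THN : ST_THN := st_THN st_HYP

theorem all_CMB : ST_CMB := st_CMB all_RGM all_THN st_DIC

theorem all_FNL : ST_FNL := Pool.Agent.Helper44.UG.st_FNL all_CMB

end Pool.Agent.Helper47.UG
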